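import Mathlib

set_option autoImplicit false

open scoped ComplexOrder
open Filter Topology

namespace Pool.Agent.MP_0b3510_an

section abstract
variable {B : Type*} [CStarAlgebra B] {ι : Type*}

/-- the sum of the range projections -/
noncomputable def rangeSum (T : ι → B) (F : Finset ι) : B := ∑ j ∈ F, T j * star (T j)

/-- the basic unital positive map -/
noncomputable def Phi (T : ι → B) (F : Finset ι) : B →ₗ[ℂ] B where
  toFun x := ∑ j ∈ F, T j * x * star (T j) + (1 - rangeSum T F) * x * (1 - rangeSum T F)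
  map_add' x y := by
    simp only [mul_add, add_mul, Finset.sum_add_distrib]
    abel
  map_smul' c x := by
    simp only [mul_smul_comm, smul_mul_assoc, RingHom.id_apply, smul_add, Finset.smul_sum]

lemma Phi_apply (T : ι → B) (F : Finset ι) (x : B) :
    Phi T F x = ∑ j ∈ F, T j * x * star (T j) + (1 - rangeSum T F) * x * (1 - rangeSum T F) := rfl

lemma star_rangeSum (T : ι → B) (F : Finset ι) : star (rangeSum T F) = rangeSum T F := by
  simp [rangeSum, star_sum]

variable {T : ι → B} (hT1 : ∀ j, star (T j) * T j = 1)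
  (hT0 : ∀ i j, i ≠ j → star (T i) * T j = 0)

include hT1 hT0 in
lemma sum_mul_T (F : Finset ι) (x : B) {j : ι} (hj : j ∈ F) :
    (∑ i ∈ F, T i * x * star (T i)) * T j = T j * x := by
  rw [Finset.sum_mul, Finset.sum_eq_single j]
  · rw [mul_assoc, hT1, mul_one]
  · intro i _ hij
    rw [mul_assoc, hT0 i j hij, mul_zero]
  · intro h; exact absurd hj h

include hT1 hT0 in
lemma rangeSum_mul_T (F : Finset ι) {j : ι} (hj : j ∈ F) : rangeSum T F * T j = T j := by
  have := sum_mul_T hT1 hT0 F 1 hj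
  simpa [rangeSum] using this

include hT1 hT0 in
lemma rangeSum_sq (F : Finset ι) : rangeSum T F * rangeSum T F = rangeSum T F := by
  conv_lhs => rw [show rangeSum T F * rangeSum T F
    = rangeSum T F * ∑ j ∈ F, T j * star (T j) from rfl, Finset.mul_sum]
  apply Finset.sum_congr rfl
  intro j hj
  rw [← mul_assoc, rangeSum_mul_T hT1 hT0 F hj]

include hT1 hT0 in
lemma Phi_one (F : Finset ι) : Phi T F 1 = 1 := by
  rw [Phi_apply]
  simp only [mul_one]
  have h := rangeSum_sq hT1 hT0 F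
  have h2 : (1 - rangeSum T F) * (1 - rangeSum T F) = 1 - rangeSum T F := by
    rw [sub_mul, mul_sub, mul_sub, h]; simp
  rw [h2]
  change rangeSum T F + (1 - rangeSum T F) = 1
  abel

include hT1 hT0 in
lemma Phi_mul_T (F : Finset ι) (x : B) {j : ι} (hj : j ∈ F) : Phi T F x * T j = T j * x := by
  rw [Phi_apply, add_mul, sum_mul_T hT1 hT0 F x hj, mul_assoc, sub_mul 1 _ (T j),
    rangeSum_mul_T hT1 hT0 F hj]
  simp

lemma Phi_conj (F : Finset ι) (R : B) (hR : star R = R) (hRT : ∀ j, Commute R (T j)) (x : B) :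
    Phi T F (R * x * R) = R * Phi T F x * R := by
  have hRT' : ∀ j, Commute R (star (T j)) := by
    intro j
    have := (hRT j).star_star
    rwa [hR] at this
  have hE : Commute R (1 - rangeSum T F) := by
    apply Commute.sub_right (Commute.one_right R)
    unfold rangeSum
    exact Commute.sum_right _ _ _ (fun j _ => (hRT j).mul_right (hRT' j))
  rw [Phi_apply, Phi_apply, mul_add, add_mul, Finset.mul_sum, Finset.sum_mul]
  congr 1
  · apply Finset.sum_congr rfl
    intro j _
    calc T j * (R * x * R) * star (T j) = (T j * R) * x * (R * star (T j)) := by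
          simp only [mul_assoc]
      _ = (R * T j) * x * (star (T j) * R) := by rw [(hRT j).eq, (hRT' j).eq]
      _ = _ := by simp only [mul_assoc]
  · calc (1 - rangeSum T F) * (R * x * R) * (1 - rangeSum T F)
        = ((1 - rangeSum T F) * R) * x * (R * (1 - rangeSum T F)) := by simp only [mul_assoc]
      _ = (R * (1 - rangeSum T F)) * x * ((1 - rangeSum T F) * R) := by rw [hE.eq]
      _ = _ := by simp only [mul_assoc]

lemma Phi_pow_conj (F : Finset ι) (R : B) (hR : star R = R) (hRT : ∀ j, Commute R (T j))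
    (k : ℕ) (x : B) : (Phi T F ^ k) (R * x * R) = R * (Phi T F ^ k) x * R := by
  induction k with
  | zero => simp
  | succ k ih => rw [pow_succ', Module.End.mul_apply, Module.End.mul_apply, ih, Phi_conj F R hR hRT]

include hT1 hT0 in
lemma Phi_pow_one (F : Finset ι) (k : ℕ) : (Phi T F ^ k) 1 = 1 := by
  induction k with
  | zero => simp
  | succ k ih => rw [pow_succ', Module.End.mul_apply, ih, Phi_one hT1 hT0]

/-- Cesaro averages -/
noncomputable def Avg (T : ι → B) (F : Finset ι) (N : ℕ) : B →ₗ[ℂ] B :=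
  (((N + 1 : ℕ) : ℂ))⁻¹ • ∑ k ∈ Finset.range (N + 1), Phi T F ^ k

lemma Avg_apply (T : ι → B) (F : Finset ι) (N : ℕ) (x : B) :
    Avg T F N x = (((N + 1 : ℕ) : ℂ))⁻¹ • ∑ k ∈ Finset.range (N + 1), (Phi T F ^ k) x := by
  simp [Avg]

include hT1 hT0 in
lemma Avg_one (F : Finset ι) (N : ℕ) : Avg T F N 1 = 1 := by
  rw [Avg_apply]
  simp only [Phi_pow_one hT1 hT0, Finset.sum_const, Finset.card_range]
  rw [← Nat.cast_smul_eq_nsmul ℂ, smul_smul, inv_mul_cancel₀ (by positivity), one_smul]

lemma Avg_conj (F : Finset ι) (R : B) (hR : star R = R) (hRT : ∀ j, Commute R (T j))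
    (N : ℕ) (x : B) : Avg T F N (R * x * R) = R * Avg T F N x * R := by
  rw [Avg_apply, Avg_apply]
  simp only [Phi_pow_conj F R hR hRT, mul_smul_comm, smul_mul_assoc, Finset.mul_sum,
    Finset.sum_mul]

include hT1 hT0 in
lemma Avg_comm (F : Finset ι) (N : ℕ) (x : B) {j : ι} (hj : j ∈ F) :
    Avg T F N x * T j - T j * Avg T F N x
      = (((N + 1 : ℕ) : ℂ))⁻¹ • (x * T j - T j * (Phi T F ^ N) x) := by
  rw [Avg_apply, smul_mul_assoc, mul_smul_comm, ← smul_sub]
  congr 1
  rw [Finset.sum_mul, Finset.mul_sum, Finset.sum_range_succ', Finset.sum_range_succ]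
  have : ∀ k ∈ Finset.range N, (Phi T F ^ (k + 1)) x * T j = T j * (Phi T F ^ k) x := by
    intro k _
    rw [pow_succ', Module.End.mul_apply, Phi_mul_T hT1 hT0 F _ hj]
  rw [Finset.sum_congr rfl this]
  simp

variable [PartialOrder B] [StarOrderedRing B]

lemma Phi_nonneg (T : ι → B) (F : Finset ι) {x : B} (hx : 0 ≤ x) : 0 ≤ Phi T F x := by
  rw [Phi_apply]
  apply add_nonneg
  · exact Finset.sum_nonneg (fun j _ => star_right_conjugate_nonneg hx _)
  · have := star_right_conjugate_nonneg hx (1 - rangeSum T F)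
    rwa [star_sub, star_one, star_rangeSum] at this

lemma Phi_pow_nonneg (T : ι → B) (F : Finset ι) (k : ℕ) {x : B} (hx : 0 ≤ x) :
    0 ≤ (Phi T F ^ k) x := by
  induction k with
  | zero => simpa
  | succ k ih => rw [pow_succ', Module.End.mul_apply]; exact Phi_nonneg T F ih

lemma Avg_nonneg (T : ι → B) (F : Finset ι) (N : ℕ) {x : B} (hx : 0 ≤ x) :
    0 ≤ Avg T F N x := by
  rw [Avg_apply]
  apply smul_nonneg
  · rw [← Complex.ofReal_natCast, ← Complex.ofReal_inv]
    exact Complex.zero_le_real.mpr (by positivity)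
  · exact Finset.sum_nonneg (fun k _ => Phi_pow_nonneg T F k hx)

include hT1 hT0 in
lemma norm_Phi_pow_le (F : Finset ι) (k : ℕ) {x : B} (hx : 0 ≤ x) (hx1 : x ≤ 1) :
    ‖(Phi T F ^ k) x‖ ≤ 1 := by
  rw [CStarAlgebra.norm_le_one_iff_of_nonneg _ (Phi_pow_nonneg T F k hx)]
  have := Phi_pow_nonneg T F k (sub_nonneg.mpr hx1)
  rwa [map_sub, Phi_pow_one hT1 hT0, sub_nonneg] at this

include hT1 hT0 in
lemma norm_Avg_le (F : Finset ι) (N : ℕ) {x : B} (hx : 0 ≤ x) (hx1 : x ≤ 1) :
    ‖Avg T F N x‖ ≤ 1 := by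
  rw [CStarAlgebra.norm_le_one_iff_of_nonneg _ (Avg_nonneg T F N hx)]
  have := Avg_nonneg T F N (sub_nonneg.mpr hx1)
  rwa [map_sub, Avg_one hT1 hT0, sub_nonneg] at this

include hT1 hT0 in
lemma norm_Avg_comm_le (F : Finset ι) (N : ℕ) {x : B} (hx : 0 ≤ x) (hx1 : x ≤ 1) {j : ι}
    (hj : j ∈ F) :
    ‖Avg T F N x * T j - T j * Avg T F N x‖ ≤ 2 * ‖T j‖ * (1 / ((N : ℝ) + 1)) := by
  rw [Avg_comm hT1 hT0 F N x hj, norm_smul, norm_inv, Complex.norm_natCast]
  have h1 : ‖x‖ ≤ 1 := (CStarAlgebra.norm_le_one_iff_of_nonneg _ hx).mpr hx1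
  have h2 := norm_Phi_pow_le hT1 hT0 F N hx hx1
  have h3 : ‖x * T j - T j * (Phi T F ^ N) x‖ ≤ 2 * ‖T j‖ := by
    calc _ ≤ ‖x * T j‖ + ‖T j * (Phi T F ^ N) x‖ := norm_sub_le _ _
      _ ≤ ‖x‖ * ‖T j‖ + ‖T j‖ * ‖(Phi T F ^ N) x‖ := add_le_add (norm_mul_le _ _) (norm_mul_le _ _)
      _ ≤ 1 * ‖T j‖ + ‖T j‖ * 1 := by gcongr
      _ = _ := by ring
  push_cast
  rw [one_div, mul_comm]
  gcongr

omit [PartialOrder B] [StarOrderedRing B] in
/-- elements asymptotically commuting with a bounded self-adjoint sequence -/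
noncomputable def asymComm (y : ℕ → B) (hy : ∀ N, star (y N) = y N) : StarSubalgebra ℂ B where
  carrier := {d | Tendsto (fun N => y N * d - d * y N) atTop (𝓝 0)}
  mul_mem' := by
    intro a b ha hb
    have h1 := (ha.mul_const b).add (hb.const_mul a)
    simp only [zero_mul, mul_zero, add_zero] at h1
    refine h1.congr (fun N => ?_)
    noncomm_ring
  add_mem' := by
    intro a b ha hb
    have h1 := ha.add hb
    simp only [add_zero] at h1
    refine h1.congr (fun N => ?_)
    noncomm_ring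
  algebraMap_mem' := by
    intro c
    have : (fun N => y N * algebraMap ℂ B c - algebraMap ℂ B c * y N) = fun _ => 0 := by
      funext N
      rw [Algebra.commutes, sub_self]
    simp only [Set.mem_ofPred_eq, this]
    exact tendsto_const_nhds
  star_mem' := by
    intro a ha
    have h1 := ha.star.neg
    simp only [star_zero, neg_zero] at h1
    refine h1.congr (fun N => ?_)
    simp [star_mul, hy]

omit [PartialOrder B] [StarOrderedRing B] in
lemma isClosed_asymComm (y : ℕ → B) (hy : ∀ N, star (y N) = y N) (hb : ∀ N, ‖y N‖ ≤ 1) :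
    IsClosed (asymComm y hy : Set B) := by
  apply isClosed_of_closure_subset
  intro d hd
  change Tendsto (fun N => y N * d - d * y N) atTop (𝓝 0)
  rw [Metric.tendsto_nhds]
  intro ε hε
  obtain ⟨e, he, hde⟩ := Metric.mem_closure_iff.mp hd (ε / 3) (by positivity)
  have he' : Tendsto (fun N => y N * e - e * y N) atTop (𝓝 0) := he
  rw [Metric.tendsto_nhds] at he'
  filter_upwards [he' (ε / 3) (by positivity)] with N hN
  rw [dist_zero_right] at hN ⊢
  rw [dist_eq_norm] at hde
  have h1 : y N * d - d * y N = (y N * e - e * y N) + (y N * (d - e) - (d - e) * y N) := by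
    noncomm_ring
  have h2 : ‖y N * (d - e)‖ ≤ ‖d - e‖ := by
    calc _ ≤ ‖y N‖ * ‖d - e‖ := norm_mul_le _ _
      _ ≤ 1 * ‖d - e‖ := by gcongr; exact hb N
      _ = _ := one_mul _
  have h3 : ‖(d - e) * y N‖ ≤ ‖d - e‖ := by
    calc _ ≤ ‖d - e‖ * ‖y N‖ := norm_mul_le _ _
      _ ≤ ‖d - e‖ * 1 := by gcongr; exact hb N
      _ = _ := mul_one _
  rw [h1]
  calc _ ≤ ‖y N * e - e * y N‖ + ‖y N * (d - e) - (d - e) * y N‖ := norm_add_le _ _
    _ ≤ ‖y N * e - e * y N‖ + (‖y N * (d - e)‖ + ‖(d - e) * y N‖) := by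
        gcongr; exact norm_sub_le _ _
    _ < ε := by linarith

include hT1 hT0 in
theorem abstract_contra (F : ℕ → Finset ι) (hF : ∀ j, ∀ᶠ N in atTop, j ∈ F N)
    (ω : B →L[ℂ] ℂ) (hω1 : ω 1 = 1) (hω : ∀ x, 0 ≤ x → 0 ≤ ω x) (U R P : Fin 3 → B)
    (hU : ∀ n, U n ∈ (StarAlgebra.adjoin ℂ (Set.range T)).topologicalClosure)
    (hUU : ∀ n, U n * U n = 1) (hR : ∀ n, star (R n) = R n) (hRT : ∀ n j, Commute (R n) (T j))
    (hωR : ∀ n x, ω (R n * x * R n) = ω (U n * x * U n))
    (hP : ∀ n, IsStarProjection (P n)) (hPsum : P 0 + P 1 + P 2 ≤ 1)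
    (hRP : ∀ n, R n * (1 - P n) * R n ≤ P n) : False := by
  have key : ∀ n, ∀ᶠ N in atTop, (2 / 3 : ℝ) < 2 * (ω (Avg T (F N) N (P n))).re := by
    intro n
    set y : ℕ → B := fun N => Avg T (F N) N (1 - P n) with hy
    have hx0 : 0 ≤ 1 - P n := (hP n).one_sub_nonneg
    have hx1 : 1 - P n ≤ 1 := (hP n).one_sub.le_one
    have hysa : ∀ N, star (y N) = y N := fun N =>
      (IsSelfAdjoint.of_nonneg (Avg_nonneg T (F N) N hx0)).star_eq
    have hyb : ∀ N, ‖y N‖ ≤ 1 := fun N => norm_Avg_le hT1 hT0 (F N) N hx0 hx1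
    have hTmem : ∀ j, T j ∈ asymComm y hysa := by
      intro j
      change Tendsto (fun N => y N * T j - T j * y N) atTop (𝓝 0)
      rw [tendsto_zero_iff_norm_tendsto_zero]
      have h0 := (tendsto_one_div_add_atTop_nhds_zero_nat (𝕜 := ℝ)).const_mul (2 * ‖T j‖)
      rw [mul_zero] at h0
      refine squeeze_zero' (Eventually.of_forall (fun _ => norm_nonneg _)) ?_ h0
      filter_upwards [hF j] with N hN
      exact norm_Avg_comm_le hT1 hT0 (F N) N hx0 hx1 hN
    have hle : (StarAlgebra.adjoin ℂ (Set.range T)).topologicalClosure ≤ asymComm y hysa := by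
      apply StarSubalgebra.topologicalClosure_minimal
      · rw [StarAlgebra.adjoin_le_iff]
        rintro _ ⟨j, rfl⟩
        exact hTmem j
      · exact isClosed_asymComm y hysa hyb
    have hUmem : Tendsto (fun N => y N * U n - U n * y N) atTop (𝓝 0) := hle (hU n)
    have h1 : Tendsto (fun N => (ω (U n * y N * U n - y N)).re) atTop (𝓝 0) := by
      have h2 := hUmem.const_mul (U n)
      rw [mul_zero] at h2
      have h3 : Tendsto (fun N => U n * y N * U n - y N) atTop (𝓝 0) := by
        refine h2.congr (fun N => ?_)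
        rw [mul_sub, ← mul_assoc, ← mul_assoc, hUU n, one_mul]
      have h4 := (Complex.continuous_re.tendsto _).comp ((ω.continuous.tendsto 0).comp h3)
      rw [map_zero, Complex.zero_re] at h4
      exact h4
    filter_upwards [h1.eventually (lt_mem_nhds (show (-1 / 3 : ℝ) < 0 by norm_num))] with N hN
    have h5 := hω _ (Avg_nonneg T (F N) N (sub_nonneg.mpr (hRP n)))
    rw [map_sub, map_sub, Avg_conj (F N) (R n) (hR n) (hRT n), hωR] at h5
    have h6 := (Complex.le_def.mp h5).1
    have h7 : ω (y N) = 1 - ω (Avg T (F N) N (P n)) := by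
      simp only [hy]
      rw [map_sub, map_sub, Avg_one hT1 hT0, hω1]
    rw [map_sub, h7] at hN
    simp only [Complex.sub_re, Complex.one_re, Complex.zero_re] at hN h6
    change 0 ≤ _ - (ω (U n * y N * U n)).re at h6
    linarith
  obtain ⟨N, h0, h1, h2⟩ := ((key 0).and ((key 1).and (key 2))).exists
  have h5 := hω _ (Avg_nonneg T (F N) N (sub_nonneg.mpr hPsum))
  rw [map_sub, map_sub, Avg_one hT1 hT0, hω1, map_add, map_add, map_add, map_add] at h5
  have h6 := (Complex.le_def.mp h5).1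
  simp only [Complex.sub_re, Complex.one_re, Complex.zero_re, Complex.add_re] at h6
  linarith

end abstract

end Pool.Agent.MP_0b3510_an
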