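import Mathlib

set_option autoImplicit false

namespace Pool.Agent.MP_0b3510_an

/-- A state: a positive linear functional of norm one. -/
def IsState {A : Type*} [CStarAlgebra A] (φ : A →L[ℂ] ℂ) : Prop :=
  ‖φ‖ = 1 ∧ ∀ x : A, 0 ≤ (φ (star x * x)).re ∧ (φ (star x * x)).im = 0

/-- `s` is a sequence of isometries with mutually orthogonal ranges generating the C*-algebra. -/
def IsCuntzGenerators {A : Type*} [CStarAlgebra A] (s : ℕ → A) : Prop :=
  (∀ i, star (s i) * s i = 1) ∧ (∀ i j, i ≠ j → star (s i) * s j = 0) ∧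
    (StarAlgebra.adjoin ℂ (Set.range s)).topologicalClosure = ⊤

/-- `(D, ρ)` is the reduced free product of countably many copies of `(A, ω)`:
Voiculescu's characterisation. -/
def IsReducedFreePower {A D : Type*} [CStarAlgebra A] [CStarAlgebra D]
    (ω : A →L[ℂ] ℂ) (ρ : D →L[ℂ] ℂ) : Prop :=
  IsState ρ ∧ ∃ ι : ℕ → (A →⋆ₐ[ℂ] D),
    (∀ n a, ρ (ι n a) = ω a) ∧
    (∀ l : List (ℕ × A), l ≠ [] → l.IsChain (fun p q => p.1 ≠ q.1) → (∀ p ∈ l, ω p.2 = 0) →
      ρ (l.map (fun p => ι p.1 p.2)).prod = 0) ∧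
    (StarAlgebra.adjoin ℂ (⋃ n, Set.range (ι n))).topologicalClosure = ⊤ ∧
    (∀ x : D, (∀ y : D, ρ (star (x * y) * (x * y)) = 0) → x = 0)

end Pool.Agent.MP_0b3510_an
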