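import Pool.Agent.MP_0b3510_an.States

/-! Existence of the reduced free power (Voiculescu's construction on the space of words). -/

set_option autoImplicit false
set_option linter.unusedSectionVars false

open scoped ComplexOrder ComplexConjugate InnerProductSpace CStarAlgebra Classical
open Filter Topology

namespace Pool.Agent.MP_0b3510_an.Ex

section Words

variable {B : Type} (o : B)

/-- Alternating words in the letters different from `o`. -/
def Wd : Type :=
  {l : List (ℕ × B) // l.IsChain (fun p q => p.1 ≠ q.1) ∧ ∀ p ∈ l, p.2 ≠ o}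

/-- The empty word. -/
def nil : Wd o := ⟨[], List.isChain_nil, by simp⟩

/-- Words not starting in the copy `n`. -/
def Wn (n : ℕ) : Type := {l : Wd o // (l.1.map Prod.fst).head? ≠ some n}

/-- Put a letter in front of a word. -/
noncomputable def cons (n : ℕ) (x : Wn o n × B) : Wd o :=
  if h : x.2 = o then x.1.1 else
    ⟨(n, x.2) :: x.1.1.1, by
      have h1 := x.1.1.2.1
      have h2 := x.1.2
      rcases hl : x.1.1.1 with _ | ⟨q, t⟩
      · simp
      · rw [hl] at h1 h2
        refine List.IsChain.cons_cons ?_ h1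
        intro h3
        apply h2
        simp [← h3], by
      intro p hp
      rcases List.mem_cons.mp hp with rfl | hp
      · exact h
      · exact x.1.1.2.2 p hp⟩

lemma cons_o (n : ℕ) (t : Wn o n) : cons o n (t, o) = t.1 := by simp [cons]

lemma cons_val (n : ℕ) (t : Wn o n) {β : B} (h : β ≠ o) :
    (cons o n (t, β)).1 = (n, β) :: t.1.1 := by simp [cons, h]

lemma cons_bijective (n : ℕ) : Function.Bijective (cons o n) := by
  constructor
  · rintro ⟨t, β⟩ ⟨t', β'⟩ h
    by_cases h1 : β = o <;> by_cases h2 : β' = o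
    · subst h1; subst h2
      rw [cons_o, cons_o] at h
      rw [Subtype.ext h]
    · subst h1
      exfalso
      apply t.2
      rw [cons_o] at h
      rw [h, cons_val _ _ _ h2]
      simp
    · subst h2
      exfalso
      apply t'.2
      rw [cons_o] at h
      rw [← h, cons_val _ _ _ h1]
      simp
    · have h3 := congrArg Subtype.val h
      rw [cons_val _ _ _ h1, cons_val _ _ _ h2] at h3
      simp only [List.cons.injEq, Prod.mk.injEq, true_and] at h3
      rw [h3.1, Subtype.ext (Subtype.ext h3.2)]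
  · intro l
    by_cases h : (l.1.map Prod.fst).head? = some n
    · obtain ⟨l, hl1, hl2⟩ := l
      rcases l with _ | ⟨⟨m, β⟩, t⟩
      · simp at h
      · have hm : m = n := by simpa using h
        subst hm
        have hβ : β ≠ o := hl2 (m, β) (by simp)
        refine ⟨(⟨⟨t, hl1.tail, fun p hp => hl2 p (by simp [hp])⟩, ?_⟩, β), ?_⟩
        · rcases t with _ | ⟨q, t⟩
          · simp
          · have := (List.isChain_cons_cons.mp hl1).1
            simpa using fun h => this h.symm
        · exact Subtype.ext (cons_val _ _ _ hβ)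
    · exact ⟨(⟨l, h⟩, o), cons_o _ _ _⟩

/-- Words are pairs (tail, first letter). -/
noncomputable def eqv (n : ℕ) : Wn o n × B ≃ Wd o := Equiv.ofBijective _ (cons_bijective o n)

end Words

section Diag

variable {I H : Type} [NormedAddCommGroup H] [InnerProductSpace ℂ H] [CompleteSpace H]

/-- The diagonal representation on a Hilbert sum of copies of `H`. -/
noncomputable def diag (I : Type) (H : Type) [NormedAddCommGroup H] [InnerProductSpace ℂ H]
    [CompleteSpace H] :
    (H →L[ℂ] H) →⋆ₐ[ℂ] (lp (fun _ : I => H) 2 →L[ℂ] lp (fun _ : I => H) 2) where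
  toFun T := lp.mapCLM 2 (fun _ => T) (norm_nonneg T) (fun _ => le_rfl)
  map_one' := by ext x i; rfl
  map_mul' S T := by ext x i; rfl
  map_zero' := by ext x i; rfl
  map_add' S T := by ext x i; rfl
  commutes' c := by ext x i; rfl
  map_star' T := by
    rw [ContinuousLinearMap.star_eq_adjoint, ContinuousLinearMap.star_eq_adjoint,
      ContinuousLinearMap.eq_adjoint_iff]
    intro x y
    rw [lp.inner_eq_tsum, lp.inner_eq_tsum]
    refine tsum_congr fun i => ?_
    exact ContinuousLinearMap.adjoint_inner_left T (y i) (x i)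

lemma diag_apply (T : H →L[ℂ] H) (x : lp (fun _ : I => H) 2) (i : I) :
    diag I H T x i = T (x i) := rfl

lemma diag_single (T : H →L[ℂ] H) (i : I) (h : H) :
    diag I H T (lp.single 2 i h) = lp.single 2 i (T h) := by
  ext j
  rw [diag_apply]
  by_cases hj : j = i
  · subst hj; simp
  · simp [lp.single_apply, Pi.single_eq_of_ne hj]

end Diag

section Main

variable {B H : Type} [NormedAddCommGroup H] [InnerProductSpace ℂ H] [CompleteSpace H]
  (b : HilbertBasis B ℂ H) (o : B)

lemma orth (n : ℕ) : Orthonormal ℂ (fun l : Wd o =>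
    (lp.single 2 ((eqv o n).symm l).1 (b ((eqv o n).symm l).2) : lp (fun _ : Wn o n => H) 2)) := by
  rw [orthonormal_iff_ite]
  intro l l'
  obtain ⟨⟨t, β⟩, rfl⟩ := (eqv o n).surjective l
  obtain ⟨⟨t', β'⟩, rfl⟩ := (eqv o n).surjective l'
  simp only [Equiv.symm_apply_apply, EmbeddingLike.apply_eq_iff_eq, Prod.mk.injEq]
  rw [lp.inner_single_left]
  by_cases h : t = t'
  · subst h
    simp [orthonormal_iff_ite.mp b.orthonormal]
  · simp [lp.single_apply, h]

lemma eq_zero_of_inner {h : H} (hh : ∀ β, ⟪b β, h⟫_ℂ = 0) : h = 0 := by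
  apply b.repr.injective
  ext β
  rw [b.repr_apply_apply, hh]
  simp

/-- The Hilbert basis of the sum of copies of `H` indexed by all words. -/
noncomputable def bas (n : ℕ) : HilbertBasis (Wd o) ℂ (lp (fun _ : Wn o n => H) 2) :=
  HilbertBasis.mkOfOrthogonalEqBot (orth b o n) (by
    rw [Submodule.eq_bot_iff]
    intro y hy
    ext t
    apply eq_zero_of_inner b
    intro β
    have := (Submodule.mem_orthogonal _ _).mp hy _
      (Submodule.subset_span (Set.mem_range_self (eqv o n (t, β))))
    simp only [Equiv.symm_apply_apply] at this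
    rwa [lp.inner_single_left] at this)

lemma bas_apply (n : ℕ) (t : Wn o n) (β : B) :
    bas b o n (cons o n (t, β)) = lp.single 2 t (b β) := by
  have h : cons o n (t, β) = eqv o n (t, β) := rfl
  rw [bas, HilbertBasis.coe_mkOfOrthogonalEqBot, h]
  simp only [Equiv.symm_apply_apply]

lemma repr_coord (n : ℕ) (y : lp (fun _ : Wn o n => H) 2) (t : Wn o n) (β : B) :
    (bas b o n).repr y (cons o n (t, β)) = ⟪b β, y t⟫_ℂ := by
  rw [HilbertBasis.repr_apply_apply, bas_apply, lp.inner_single_left]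

lemma repr_single (n : ℕ) (t : Wn o n) (β : B) :
    (bas b o n).repr (lp.single 2 t (b β)) = lp.single 2 (cons o n (t, β)) (1 : ℂ) := by
  rw [← bas_apply, HilbertBasis.repr_self]

/-- The `n`-th copy of `B(H)` acting on the space of words. -/
noncomputable def lam (n : ℕ) :
    (H →L[ℂ] H) →⋆ₐ[ℂ] (lp (fun _ : Wd o => ℂ) 2 →L[ℂ] lp (fun _ : Wd o => ℂ) 2) :=
  ((bas b o n).repr.conjStarAlgEquiv : _ →⋆ₐ[ℂ] _).comp (diag (Wn o n) H)

lemma lam_repr (n : ℕ) (T : H →L[ℂ] H) (y : lp (fun _ : Wn o n => H) 2) :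
    lam b o n T ((bas b o n).repr y) = (bas b o n).repr (diag (Wn o n) H T y) := by
  change (bas b o n).repr (diag (Wn o n) H T ((bas b o n).repr.symm ((bas b o n).repr y))) = _
  rw [LinearIsometryEquiv.symm_apply_apply]

lemma lam_single (n : ℕ) (T : H →L[ℂ] H) (t : Wn o n) :
    lam b o n T (lp.single 2 t.1 (1 : ℂ)) = (bas b o n).repr (lp.single 2 t (T (b o))) := by
  rw [← cons_o o n t, ← repr_single b, lam_repr, diag_single]

lemma lam_supp (n : ℕ) (T : H →L[ℂ] H) (hT : ⟪b o, T (b o)⟫_ℂ = 0)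
    (x : lp (fun _ : Wd o => ℂ) 2)
    (hx : ∀ l : Wd o, (l.1.map Prod.fst).head? = some n → x l = 0)
    (l : Wd o) (hl : (l.1.map Prod.fst).head? ≠ some n) : lam b o n T x l = 0 := by
  obtain ⟨y, rfl⟩ := (bas b o n).repr.surjective x
  have h1 : l = cons o n (⟨l, hl⟩, o) := (cons_o o n ⟨l, hl⟩).symm
  rw [lam_repr, h1, repr_coord, diag_apply]
  have h2 : y ⟨l, hl⟩ = ⟪b o, y ⟨l, hl⟩⟫_ℂ • b o := by
    rw [← sub_eq_zero]
    apply eq_zero_of_inner b
    intro β
    rw [inner_sub_right, inner_smul_right, orthonormal_iff_ite.mp b.orthonormal]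
    by_cases hβ : β = o
    · simp [hβ]
    · rw [← repr_coord, hx _ (by rw [cons_val _ _ _ hβ]; simp)]
      simp [hβ]
  rw [h2, map_smul, inner_smul_right, hT, mul_zero]

end Main

variable {A : Type} [CStarAlgebra A]

lemma state_one {ω : A →L[ℂ] ℂ} (hω : IsState ω) : ω 1 = 1 := by
  let _ := CStarAlgebra.spectralOrder A
  let _ := CStarAlgebra.spectralOrderedRing A
  obtain ⟨f, j, g⟩ := exists_gns hω.nonneg
  have h1 : ω 1 = (‖j 1‖ : ℂ) ^ 2 := by
    have := g.inner 1 1
    rw [star_one, one_mul, inner_self_eq_norm_sq_to_K] at this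
    exact this.symm
  have hA : Nontrivial A := by
    by_contra h
    have := not_nontrivial_iff_subsingleton.mp h
    have h2 : ω = 0 := by ext a; rw [Subsingleton.elim a 0]; simp
    have h3 := hω.1
    rw [h2, norm_zero] at h3
    exact zero_ne_one h3
  have h2 : ‖j 1‖ ^ 2 ≤ 1 := by
    have := ω.le_opNorm 1
    rw [h1, hω.1, norm_one, mul_one, norm_pow, Complex.norm_real, norm_norm] at this
    exact this
  have h3 : 1 ≤ ‖j 1‖ ^ 2 := by
    rw [← hω.1]
    refine ω.opNorm_le_bound (by positivity) fun a => ?_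
    have h4 := g.inner 1 a
    rw [star_one, one_mul] at h4
    have h5 : j a = f.gnsStarAlgHom a (j 1) := by rw [g.act, mul_one]
    rw [← h4, h5]
    calc _ ≤ ‖j 1‖ * ‖f.gnsStarAlgHom a (j 1)‖ := norm_inner_le_norm _ _
      _ ≤ ‖j 1‖ * (‖f.gnsStarAlgHom a‖ * ‖j 1‖) := by
          gcongr; exact ContinuousLinearMap.le_opNorm _ _
      _ ≤ ‖j 1‖ * (‖a‖ * ‖j 1‖) := by
          gcongr; exact NonUnitalStarAlgHom.norm_apply_le _ _
      _ = _ := by ring
  rw [h1, ← Complex.ofReal_pow, le_antisymm h2 h3, Complex.ofReal_one]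

theorem exists_of_gns {ω : A →L[ℂ] ℂ} {H : Type} [NormedAddCommGroup H] [InnerProductSpace ℂ H]
    [CompleteSpace H] {π : A →⋆ₐ[ℂ] (H →L[ℂ] H)} {j : A →L[ℂ] H} (g : GnsData ω π j)
    {B : Type} (b : HilbertBasis B ℂ H) (o : B) (ho : b o = j 1) :
    ∃ (D : Type) (_ : CStarAlgebra D) (ρ : D →L[ℂ] ℂ), IsReducedFreePower ω ρ := by
  let E := lp (fun _ : Wd o => ℂ) 2
  let ι0 : ℕ → (A →⋆ₐ[ℂ] (E →L[ℂ] E)) := fun n => (lam b o n).comp π
  let S : StarSubalgebra ℂ (E →L[ℂ] E) :=
    (StarAlgebra.adjoin ℂ (⋃ n, Set.range (ι0 n))).topologicalClosure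
  have hS : IsClosed (S : Set (E →L[ℂ] E)) := StarSubalgebra.isClosed_topologicalClosure _
  have hmem : ∀ n a, ι0 n a ∈ S := fun n a =>
    StarSubalgebra.le_topologicalClosure _
      (StarAlgebra.subset_adjoin _ _ (Set.mem_iUnion.mpr ⟨n, a, rfl⟩))
  let δ : E := lp.single 2 (nil o) (1 : ℂ)
  have hδ : ‖δ‖ = 1 := by
    rw [lp.norm_single (by norm_num), norm_one]
  have hinner : ∀ x : E, ⟪δ, x⟫_ℂ = x (nil o) := by
    intro x
    rw [lp.inner_single_left]
    simp
  have hωa : ∀ a, ⟪b o, π a (b o)⟫_ℂ = ω a := by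
    intro a
    rw [ho, g.act, mul_one, g.inner, star_one, one_mul]
  let ι : ℕ → (A →⋆ₐ[ℂ] S) := fun n => (ι0 n).codRestrict S (hmem n)
  let ρ : S →L[ℂ] ℂ := (innerSL ℂ δ).comp
    (((ContinuousLinearMap.apply ℂ E δ)).comp S.toSubalgebra.toSubmodule.subtypeL)
  have hρ : ∀ x : S, ρ x = ⟪δ, (x : E →L[ℂ] E) δ⟫_ℂ := fun x => rfl
  have hδ0 : δ ≠ 0 := by
    intro h
    rw [h, norm_zero] at hδ
    exact zero_ne_one hδ
  have hρ1 : ρ 1 = 1 := by
    rw [hρ]
    change ⟪δ, δ⟫_ℂ = 1
    rw [inner_self_eq_norm_sq_to_K, hδ]; simp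
  have : Nontrivial S := by
    refine ⟨⟨1, 0, fun h => ?_⟩⟩
    rw [h, map_zero] at hρ1
    exact zero_ne_one hρ1
  refine ⟨S, inferInstance, ρ, isState_of_norm_le ρ ?_ hρ1, ι, ?_, ?_, ?_, ?_⟩
  · refine ρ.opNorm_le_bound zero_le_one fun x => ?_
    rw [hρ]
    calc _ ≤ ‖δ‖ * ‖(x : E →L[ℂ] E) δ‖ := norm_inner_le_norm _ _
      _ ≤ ‖δ‖ * (‖(x : E →L[ℂ] E)‖ * ‖δ‖) := by
          gcongr; exact ContinuousLinearMap.le_opNorm _ _
      _ = _ := by rw [hδ, mul_one]; rfl
  · intro n a
    rw [hρ, hinner]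
    let t : Wn o n := ⟨nil o, by simp [nil]⟩
    change lam b o n (π a) (lp.single 2 t.1 (1 : ℂ)) t.1 = _
    rw [lam_single]
    conv_lhs => rw [← cons_o o n t]
    rw [repr_coord, lp.single_apply_self, hωa]
  · intro l hl hch hz
    have key : ∀ l : List (ℕ × A), l.IsChain (fun p q => p.1 ≠ q.1) → (∀ p ∈ l, ω p.2 = 0) →
        ∀ w : Wd o, (w.1.map Prod.fst).head? ≠ (l.map Prod.fst).head? →
          (((l.map (fun p => ι p.1 p.2)).prod : S) : E →L[ℂ] E) δ w = 0 := by
      intro l
      induction l with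
      | nil =>
        intro _ _ w hw
        have : w ≠ nil o := by
          rintro rfl
          exact hw rfl
        change δ w = 0
        simp [δ, lp.single_apply, Pi.single_eq_of_ne this]
      | cons p l ih =>
        intro hch hz w hw
        rw [List.map_cons, List.prod_cons]
        change lam b o p.1 (π p.2) ((((l.map (fun p => ι p.1 p.2)).prod : S) : E →L[ℂ] E) δ) w = 0
        refine lam_supp b o p.1 _ (by rw [hωa]; exact hz p (by simp)) _ (fun v hv => ?_) w
          (by simpa using hw)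
        refine ih hch.tail (fun q hq => hz q (by simp [hq])) v ?_
        rw [hv]
        rcases l with _ | ⟨q, l⟩
        · simp
        · simpa using (List.isChain_cons_cons.mp hch).1
    rw [hρ, hinner]
    apply key l hch hz
    rcases l with _ | ⟨q, l⟩
    · exact absurd rfl hl
    · simp [nil]
  · rw [eq_top_iff]
    rintro x -
    have h1 : (StarAlgebra.adjoin ℂ (⋃ n, Set.range (ι n))).map S.subtype =
        StarAlgebra.adjoin ℂ (⋃ n, Set.range (ι0 n)) := by
      rw [StarAlgHom.map_adjoin, Set.image_iUnion]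
      congr 2
      ext n y
      simp only [Set.mem_image, Set.mem_range, exists_exists_eq_and]
      rfl
    change x ∈ closure _
    rw [Topology.IsInducing.subtypeVal.closure_eq_preimage_closure_image]
    have h2 : Subtype.val '' ((StarAlgebra.adjoin ℂ (⋃ n, Set.range (ι n)) :
        StarSubalgebra ℂ S) : Set S) =
        (StarAlgebra.adjoin ℂ (⋃ n, Set.range (ι0 n)) : StarSubalgebra ℂ (E →L[ℂ] E)) := by
      rw [← h1]; rfl
    exact closure_mono h2.ge x.2
  · intro x hx
    let ev : S →L[ℂ] E :=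
      ((ContinuousLinearMap.apply ℂ E δ)).comp S.toSubalgebra.toSubmodule.subtypeL
    let K : Submodule ℂ E := (LinearMap.range (ev : S →ₗ[ℂ] E)).topologicalClosure
    have hK : IsClosed (K : Set E) := Submodule.isClosed_topologicalClosure _
    have hinv : ∀ (y : S) (v : E), v ∈ K → (y : E →L[ℂ] E) v ∈ K := by
      intro y v hv
      refine closure_minimal (t := (y : E →L[ℂ] E) ⁻¹' (K : Set E)) ?_
        (hK.preimage (y : E →L[ℂ] E).continuous) hv
      rintro _ ⟨z, rfl⟩
      exact Submodule.le_topologicalClosure _ ⟨y * z, rfl⟩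
    have hsingle : ∀ (k : ℕ) (w : Wd o), w.1.length = k → (lp.single 2 w (1 : ℂ) : E) ∈ K := by
      intro k
      induction k with
      | zero =>
        intro w hw
        have : w = nil o := Subtype.ext (List.length_eq_zero_iff.mp hw)
        rw [this]
        exact Submodule.le_topologicalClosure _ ⟨1, rfl⟩
      | succ k ih =>
        intro w hw
        obtain ⟨n, hn⟩ : ∃ n, (w.1.map Prod.fst).head? = some n := by
          rcases hl : w.1 with _ | ⟨q, l⟩
          · rw [hl] at hw; simp at hw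
          · exact ⟨q.1, by simp⟩
        obtain ⟨⟨t, β⟩, rfl⟩ := (cons_bijective o n).2 w
        have hβ : β ≠ o := by
          rintro rfl
          rw [cons_o] at hn
          exact t.2 hn
        have ht : t.1.1.length = k := by
          rw [cons_val _ _ _ hβ] at hw
          simpa using hw
        rw [← repr_single b]
        have hc : Continuous fun h : H => ((bas b o n).repr (lp.single 2 t h) : E) :=
          (bas b o n).repr.continuous.comp (lp.isometry_single t).continuous
        refine g.dense.induction_on (p := fun h => ((bas b o n).repr (lp.single 2 t h) : E) ∈ K)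
          (b β) (hK.preimage hc) fun a => ?_
        have h1 : j a = π a (b o) := by rw [ho, g.act, mul_one]
        rw [h1, ← lam_single]
        exact hinv (ι n a) _ (ih _ ht)
    have hKtop : ∀ v : E, v ∈ K := by
      intro v
      refine hK.mem_of_tendsto (lp.hasSum_single (by norm_num) v) (Eventually.of_forall fun F => ?_)
      refine K.sum_mem fun w _ => ?_
      have : (lp.single 2 w (v w) : E) = v w • lp.single 2 w (1 : ℂ) := by
        rw [← lp.single_smul, smul_eq_mul, mul_one]
      rw [this]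
      exact K.smul_mem _ (hsingle _ w rfl)
    apply Subtype.ext
    ext1 v
    have hker : K ≤ LinearMap.ker ((x : E →L[ℂ] E) : E →ₗ[ℂ] E) := by
      refine Submodule.topologicalClosure_minimal _ ?_ (ContinuousLinearMap.isClosed_ker _)
      rintro _ ⟨y, rfl⟩
      have h1 := hx y
      rw [hρ] at h1
      have h2 : ⟪((x * y : S) : E →L[ℂ] E) δ, ((x * y : S) : E →L[ℂ] E) δ⟫_ℂ = 0 := by
        rw [← h1, ← ContinuousLinearMap.adjoint_inner_right]
        rfl
      exact inner_self_eq_zero.mp h2
    exact hker (hKtop v)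

theorem exists_reducedFreePower {ω : A →L[ℂ] ℂ} (hω : IsState ω) :
    ∃ (D : Type) (_ : CStarAlgebra D) (ρ : D →L[ℂ] ℂ), IsReducedFreePower ω ρ := by
  let _ := CStarAlgebra.spectralOrder A
  let _ := CStarAlgebra.spectralOrderedRing A
  obtain ⟨f, j, g⟩ := exists_gns hω.nonneg
  have h1 : ⟪j 1, j 1⟫_ℂ = 1 := by rw [g.inner, star_one, one_mul, state_one hω]
  have h2 : Orthonormal ℂ ((↑) : ({j 1} : Set f.GNS) → f.GNS) := by
    rw [orthonormal_iff_ite]
    rintro ⟨x, rfl⟩ ⟨y, rfl⟩
    simpa using h1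
  obtain ⟨w, b, hw, hb⟩ := h2.exists_hilbertBasis_extension
  exact exists_of_gns g b ⟨j 1, hw rfl⟩ (by rw [hb])

end Pool.Agent.MP_0b3510_an.Ex
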