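import Pool.Agent.MP_0b3510_an.Words
import Pool.Agent.MP_0b3510_an.Abstract

set_option autoImplicit false

open scoped ComplexOrder ComplexConjugate InnerProductSpace CStarAlgebra
open Filter Topology

namespace Pool.Agent.MP_0b3510_an

variable {A D : Type*} [CStarAlgebra A] [CStarAlgebra D]
variable {ω : A →L[ℂ] ℂ} {ρ : D →L[ℂ] ℂ} {ι : ℕ → (A →⋆ₐ[ℂ] D)}
variable {H : Type*} [NormedAddCommGroup H] [InnerProductSpace ℂ H] [CompleteSpace H]

/-- GNS data -/
structure GnsData (ρ : D →L[ℂ] ℂ) (π : D →⋆ₐ[ℂ] (H →L[ℂ] H)) (j : D →L[ℂ] H) : Prop where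
  dense : DenseRange j
  inner : ∀ x y, ⟪j x, j y⟫_ℂ = ρ (star x * y)
  act : ∀ d x, π d (j x) = j (d * x)

variable {π : D →⋆ₐ[ℂ] (H →L[ℂ] H)} {j : D →L[ℂ] H}

lemma GnsData.ext (g : GnsData ρ π j) {E : Type*} [NormedAddCommGroup E] [NormedSpace ℂ E]
    {S T : H →L[ℂ] E} (h : ∀ x, S (j x) = T (j x)) : S = T := by
  ext v
  exact g.dense.induction_on (p := fun v => S v = T v) v
    (isClosed_eq S.continuous T.continuous) h

lemma GnsData.ext_words (g : GnsData ρ π j) (f : FreeData ω ρ ι) {S T : H →L[ℂ] H}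
    (h : ∀ l, Alt ω l → S (j (ev ι l)) = T (j (ev ι l))) : S = T := by
  apply g.ext
  intro x
  have := f.ext_zero ((S - T).comp j) (fun l hl => by simp [h l hl]) x
  simpa [sub_eq_zero] using this

lemma GnsData.exists_right (g : GnsData ρ π j) {u : D} (hu : star u = u) (huu : u * u = 1)
    (hc : ∀ d, ρ (u * d) = ρ (d * u)) :
    ∃ R : H →L[ℂ] H, (∀ x, R (j x) = j (x * u)) ∧ star R = R ∧ R * R = 1 ∧
      ∀ d, Commute R (π d) := by
  have hb : ∀ x, ‖(j.toLinearMap ∘ₗ LinearMap.mulRight ℂ u) x‖ ≤ 1 * ‖j.toLinearMap x‖ := by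
    intro x
    have e : ⟪j (x * u), j (x * u)⟫_ℂ = ⟪j x, j x⟫_ℂ := by
      rw [g.inner, g.inner, star_mul, hu, mul_assoc, hc]
      simp only [mul_assoc, huu, mul_one]
    rw [inner_self_eq_norm_sq_to_K, inner_self_eq_norm_sq_to_K] at e
    have e' : ‖j (x * u)‖ ^ 2 = ‖j x‖ ^ 2 := by exact_mod_cast e
    have := (pow_left_inj₀ (norm_nonneg _) (norm_nonneg _) two_ne_zero).mp e'
    simp [this]
  set R := (j.toLinearMap ∘ₗ LinearMap.mulRight ℂ u).extendOfNorm j.toLinearMap with hR
  have hRj : ∀ x, R (j x) = j (x * u) := fun x =>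
    LinearMap.extendOfNorm_eq (f := j.toLinearMap ∘ₗ LinearMap.mulRight ℂ u) g.dense ⟨1, hb⟩ x
  refine ⟨R, hRj, ?_, ?_, ?_⟩
  · symm
    rw [ContinuousLinearMap.star_eq_adjoint, ContinuousLinearMap.eq_adjoint_iff]
    intro v w
    refine g.dense.induction_on₂ (p := fun v w => ⟪R v, w⟫_ℂ = ⟪v, R w⟫_ℂ) ?_ ?_ v w
    · exact isClosed_eq (by fun_prop) (by fun_prop)
    · intro x y
      rw [hRj, hRj, g.inner, g.inner, star_mul, hu, mul_assoc, hc, mul_assoc]
  · apply g.ext
    intro x
    simp [hRj, mul_assoc, huu]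
  · intro d
    apply g.ext
    intro x
    simp [hRj, g.act, mul_assoc]

/-- words ending in copy `n` -/
def EndsIn (n : ℕ) (l : List (ℕ × A)) : Prop := (l.map Prod.fst).getLast? = some n

lemma GnsData.exists_proj (g : GnsData ρ π j) (f : FreeData ω ρ ι) (n : ℕ) :
    ∃ P : H →L[ℂ] H, IsStarProjection P ∧
      (∀ l, Alt ω l → EndsIn n l → P (j (ev ι l)) = j (ev ι l)) ∧
      (∀ l, Alt ω l → ¬ EndsIn n l → P (j (ev ι l)) = 0) := by
  let S : Set H := {v | ∃ l, Alt ω l ∧ EndsIn n l ∧ v = j (ev ι l)}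
  let L : Submodule ℂ H := (Submodule.span ℂ S).topologicalClosure
  refine ⟨L.starProjection, isStarProjection_starProjection, ?_, ?_⟩
  · intro l hl hn
    rw [Submodule.starProjection_eq_self_iff]
    exact Submodule.le_topologicalClosure _ (Submodule.subset_span ⟨l, hl, hn, rfl⟩)
  · intro l hl hn
    rw [Submodule.starProjection_apply_eq_zero_iff]
    simp only [L]
    rw [Submodule.orthogonal_closure, Submodule.mem_orthogonal]
    intro v hv
    induction hv using Submodule.span_induction with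
    | mem v hv =>
      obtain ⟨l', hl', hn', rfl⟩ := hv
      rw [g.inner]
      apply f.orth l' l hl' hl
      intro e
      apply hn
      unfold EndsIn at hn' ⊢
      rw [← e, hn']
    | zero => simp
    | add x y _ _ hx hy => rw [inner_add_left, hx, hy, add_zero]
    | smul c x _ hx => rw [inner_smul_left, hx, mul_zero]

theorem no_cuntz_of_gns (g : GnsData ρ π j) (f : FreeData ω ρ ι) {u : A} (hu : star u = u)
    (huu : u * u = 1) (hu0 : ω u = 0) (huc : ∀ a, ω (u * a) = ω (a * u))
    (t : ℕ × ℕ → D) (ht1 : ∀ i, star (t i) * t i = 1) (ht0 : ∀ i k, i ≠ k → star (t i) * t k = 0)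
    (hgen : (StarAlgebra.adjoin ℂ (Set.range t)).topologicalClosure = ⊤) : False := by
  have hsu : ∀ n, star (ι n u) = ι n u := fun n => by rw [← map_star, hu]
  have hsq : ∀ n, ι n u * ι n u = 1 := fun n => by rw [← map_mul, huu, map_one]
  choose R hRj hRs hRR hRc using fun n : ℕ =>
    g.exists_right (hsu n) (hsq n) (f.centraliser hu hu0 huc n)
  choose P hP hP1 hP0 using fun n : ℕ => g.exists_proj f n
  have hPP : ∀ n m, n ≠ m → P n * P m = 0 := by
    intro n m hnm
    apply g.ext_words f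
    intro l hl
    by_cases hm : EndsIn m l
    · have hn : ¬ EndsIn n l := by
        intro hn
        unfold EndsIn at hn hm
        rw [hn] at hm
        exact hnm (Option.some.inj hm)
      simp [hP1 m l hl hm, hP0 n l hl hn]
    · simp [hP0 m l hl hm]
  have hPR : ∀ n, P n * (R n * (1 - P n)) = R n * (1 - P n) := by
    intro n
    apply g.ext_words f
    intro l hl
    by_cases hn : EndsIn n l
    · simp [hP1 n l hl hn]
    · have h1 : Alt ω (l ++ [(n, u)]) := by
        apply hl.append (Alt.singleton n hu0)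
        intro p hp q hq
        simp only [List.head?_cons, Option.mem_def, Option.some.injEq] at hq
        subst hq
        intro e
        apply hn
        unfold EndsIn
        rw [List.getLast?_map, Option.mem_def.mp hp]
        simpa using e
      have h2 : EndsIn n (l ++ [(n, u)]) := by simp [EndsIn]
      have h3 := hP1 n _ h1 h2
      rw [ev_append] at h3
      simp only [ev_cons, ev_nil, mul_one] at h3
      simp [hP0 n l hl hn, hRj, h3]
  let Ω : (H →L[ℂ] H) →L[ℂ] ℂ := (innerSL ℂ (j 1)).comp (ContinuousLinearMap.apply ℂ H (j 1))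
  have hΩ : ∀ x, Ω x = ⟪j 1, x (j 1)⟫_ℂ := fun x => rfl
  have hπc : Continuous π := map_continuous π
  refine abstract_contra (T := fun i => π (t i)) (fun i => ?_) (fun i k hik => ?_)
    (fun N => Finset.range N ×ˢ Finset.range N) (fun i => ?_) Ω ?_ ?_
    (fun n => π (ι n u)) (fun n => R n) (fun n => P n) ?_ ?_ ?_ ?_ ?_ ?_ ?_ ?_
  · rw [← map_star, ← map_mul, ht1, map_one]
  · rw [← map_star, ← map_mul, ht0 i k hik, map_zero]
  · filter_upwards [eventually_gt_atTop i.1, eventually_gt_atTop i.2] with N h1 h2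
    simp [h1, h2]
  · rw [hΩ, one_apply_eq_self, g.inner]
    simpa using f.ρone
  · intro x hx
    rw [hΩ]
    exact ((ContinuousLinearMap.nonneg_iff_isPositive x).mp hx).inner_nonneg_right _
  · intro n
    have h1 : ι n u ∈ (StarAlgebra.adjoin ℂ (Set.range t)).topologicalClosure := by
      rw [hgen]; trivial
    have h2 : (StarAlgebra.adjoin ℂ (Set.range t)).topologicalClosure ≤
        ((StarAlgebra.adjoin ℂ (Set.range fun i => π (t i))).topologicalClosure).comap π := by
      apply StarSubalgebra.topologicalClosure_minimal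
      · rw [StarAlgebra.adjoin_le_iff]
        rintro _ ⟨i, rfl⟩
        exact StarSubalgebra.le_topologicalClosure _ (StarAlgebra.subset_adjoin _ _ ⟨i, rfl⟩)
      · exact (StarSubalgebra.isClosed_topologicalClosure _).preimage hπc
    exact h2 h1
  · intro n
    rw [← map_mul, hsq, map_one]
  · exact fun n => hRs n
  · exact fun n i => hRc n _
  · intro n x
    have e1 : R n (j 1) = π (ι n u) (j 1) := by rw [hRj, g.act, one_mul, mul_one]
    have e2 : star (π (ι n u)) = π (ι n u) := by rw [← map_star, hsu]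
    have e3 := hRs n
    rw [ContinuousLinearMap.star_eq_adjoint] at e2 e3
    rw [hΩ, hΩ]
    simp only [mul_apply_eq_comp]
    conv_lhs => rw [← ContinuousLinearMap.adjoint_inner_left, e3]
    conv_rhs => rw [← ContinuousLinearMap.adjoint_inner_left, e2]
    rw [e1]
  · exact fun n => hP n
  · have h01 := (hP 0).add (hP 1) (hPP 0 1 (by norm_num))
    have h012 := h01.add (hP 2) (by
      rw [add_mul, hPP 0 2 (by norm_num), hPP 1 2 (by norm_num), add_zero])
    exact h012.le_one
  · intro n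
    have hQ : IsStarProjection (R n * (1 - P n) * R n) := by
      constructor
      · have := (hP n).one_sub.isIdempotentElem.eq
        change _ * _ = _
        calc R n * (1 - P n) * R n * (R n * (1 - P n) * R n)
            = R n * ((1 - P n) * (R n * R n) * (1 - P n)) * R n := by simp only [mul_assoc]
          _ = _ := by rw [hRR, mul_one, this]
      · change star _ = _
        rw [star_mul, star_mul, hRs, (hP n).one_sub.isSelfAdjoint.star_eq, mul_assoc]
    rw [hQ.le_iff_mul_eq_right (hP n), ← mul_assoc, hPR]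

lemma IsState.nonneg (h : IsState ρ) (x : D) : 0 ≤ ρ (star x * x) :=
  Complex.le_def.mpr ⟨(h.2 x).1, (h.2 x).2.symm⟩

theorem exists_gns (hρ : ∀ x, 0 ≤ ρ (star x * x)) [PartialOrder D] [StarOrderedRing D] :
    ∃ f : D →ₚ[ℂ] ℂ, ∃ j : D →L[ℂ] f.GNS, GnsData ρ f.gnsStarAlgHom j := by
  let f : D →ₚ[ℂ] ℂ := PositiveLinearMap.mk₀ ρ.toLinearMap (fun x hx => by
    obtain ⟨y, rfl⟩ := CStarAlgebra.nonneg_iff_eq_star_mul_self.mp hx
    exact hρ y)
  have hf : ∀ x, f x = ρ x := fun x => rfl
  have hact : ∀ d x : D, f.gnsStarAlgHom d (f.toPreGNS x : f.GNS) = (f.toPreGNS (d * x) : f.GNS) := by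
    intro d x
    change f.gnsNonUnitalStarAlgHom d _ = _
    rw [PositiveLinearMap.gnsNonUnitalStarAlgHom_apply_coe]
    rfl
  let πL : D →L[ℂ] (f.GNS →L[ℂ] f.GNS) :=
    ⟨f.gnsStarAlgHom.toAlgHom.toLinearMap, map_continuous f.gnsStarAlgHom⟩
  let j : D →L[ℂ] f.GNS := (ContinuousLinearMap.apply ℂ f.GNS (f.toPreGNS 1 : f.GNS)).comp πL
  have hj : ∀ x, j x = (f.toPreGNS x : f.GNS) := by
    intro x
    change f.gnsStarAlgHom x (f.toPreGNS 1 : f.GNS) = _
    rw [hact, mul_one]
  refine ⟨f, j, ?_, ?_, ?_⟩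
  · have : (j : D → f.GNS) = ((↑) : f.PreGNS → f.GNS) ∘ f.toPreGNS := funext hj
    rw [this]
    exact UniformSpace.Completion.denseRange_coe.comp f.toPreGNS.surjective.denseRange
      (UniformSpace.Completion.continuous_coe _)
  · intro x y
    rw [hj, hj, UniformSpace.Completion.inner_coe, PositiveLinearMap.preGNS_inner_def]
    rfl
  · intro d x
    rw [hj, hj, hact]

lemma state_star (hρ : ∀ x, 0 ≤ ρ (star x * x)) (x : D) : ρ (star x) = conj (ρ x) := by
  let _ := CStarAlgebra.spectralOrder D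
  let _ := CStarAlgebra.spectralOrderedRing D
  obtain ⟨f, j, g⟩ := exists_gns hρ
  have h1 := g.inner x 1
  have h2 := g.inner 1 x
  rw [mul_one] at h1
  rw [star_one, one_mul] at h2
  rw [← h1, ← h2, inner_conj_symm]

lemma state_cs (hρ : ∀ x, 0 ≤ ρ (star x * x)) {s : D} (hs : ρ (s * star s) = 0) (b : D) :
    ρ (s * b) = 0 := by
  let _ := CStarAlgebra.spectralOrder D
  let _ := CStarAlgebra.spectralOrderedRing D
  obtain ⟨f, j, g⟩ := exists_gns hρ
  have h1 := g.inner (star s) (star s)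
  have h2 := g.inner (star s) b
  rw [star_star] at h1 h2
  rw [hs, inner_self_eq_zero] at h1
  rw [← h2, h1, inner_zero_left]

theorem no_cuntz (hρ : ∀ x, 0 ≤ ρ (star x * x)) (f : FreeData ω ρ ι) {u : A} (hu : star u = u)
    (huu : u * u = 1) (hu0 : ω u = 0) (huc : ∀ a, ω (u * a) = ω (a * u))
    (t : ℕ × ℕ → D) (ht1 : ∀ i, star (t i) * t i = 1) (ht0 : ∀ i k, i ≠ k → star (t i) * t k = 0)
    (hgen : (StarAlgebra.adjoin ℂ (Set.range t)).topologicalClosure = ⊤) : False := by
  let _ := CStarAlgebra.spectralOrder D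
  let _ := CStarAlgebra.spectralOrderedRing D
  obtain ⟨φ, j, g⟩ := exists_gns hρ
  exact no_cuntz_of_gns g f hu huu hu0 huc t ht1 ht0 hgen

end Pool.Agent.MP_0b3510_an
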