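import Pool.Agent.MP_0b3510_an.Gns

set_option autoImplicit false

open scoped ComplexOrder ComplexConjugate CStarAlgebra
open Filter Topology

namespace Pool.Agent.MP_0b3510_an

variable {A : Type*} [CStarAlgebra A]

lemma im_eq_zero_of_norm_le (g : A →L[ℂ] ℂ) (hg : ‖g‖ ≤ 1) (h1 : g 1 = 1) {a : A}
    (ha : star a = a) : (g a).im = 0 := by
  have key : ∀ t : ℝ, 2 * (g a).im * t ≤ ‖a * a‖ := by
    intro t
    set b := a + ((t : ℂ) * Complex.I) • (1 : A) with hb
    have e1 : star b * b = a * a + ((t ^ 2 : ℝ) : ℂ) • (1 : A) := by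
      rw [hb, star_add, ha, star_smul, star_one]
      simp only [add_mul, mul_add, smul_mul_assoc, mul_smul_comm, one_mul, mul_one, smul_smul,
        star_mul', Complex.star_def, Complex.conj_ofReal, Complex.conj_I, smul_add]
      have e2 : (t : ℂ) * Complex.I * ((t : ℂ) * -Complex.I) = ((t ^ 2 : ℝ) : ℂ) := by
        push_cast
        linear_combination (-(t : ℂ) ^ 2) * Complex.I_mul_I
      rw [e2, mul_neg, neg_smul]
      abel
    have e3 : ‖b‖ * ‖b‖ ≤ ‖a * a‖ + t ^ 2 := by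
      rw [← CStarRing.norm_star_mul_self, e1]
      refine (norm_add_le _ _).trans ?_
      gcongr
      rw [norm_smul, Complex.norm_real, Real.norm_of_nonneg (sq_nonneg t)]
      rcases subsingleton_or_nontrivial A with hA | hA
      · rw [Subsingleton.elim (1 : A) 0, norm_zero, mul_zero]; positivity
      · rw [norm_one, mul_one]
    have e4 : ‖g b‖ ≤ ‖b‖ := by
      calc ‖g b‖ ≤ ‖g‖ * ‖b‖ := g.le_opNorm b
        _ ≤ 1 * ‖b‖ := by gcongr
        _ = _ := one_mul _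
    have e5 : (g b).im = (g a).im + t := by
      rw [hb, map_add, map_smul, h1]; simp
    have e6 : |(g b).im| ≤ ‖g b‖ := Complex.abs_im_le_norm _
    have e7 : (g b).im ^ 2 ≤ ‖b‖ * ‖b‖ := by
      rw [← sq_abs, ← sq]
      exact pow_le_pow_left₀ (abs_nonneg _) (e6.trans e4) 2
    rw [e5] at e7
    nlinarith [sq_nonneg (g a).im]
  by_contra hne
  have := key ((‖a * a‖ + 1) / (2 * (g a).im))
  rw [mul_div_cancel₀ _ (by positivity)] at this
  linarith

lemma pos_of_norm_le (g : A →L[ℂ] ℂ) (hg : ‖g‖ ≤ 1) (h1 : g 1 = 1) (x : A) :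
    0 ≤ (g (star x * x)).re ∧ (g (star x * x)).im = 0 := by
  let _ := CStarAlgebra.spectralOrder A
  let _ := CStarAlgebra.spectralOrderedRing A
  refine ⟨?_, im_eq_zero_of_norm_le g hg h1 (by simp)⟩
  set a := star x * x with ha
  have ha0 : 0 ≤ a := star_mul_self_nonneg x
  have h2 : a ≤ algebraMap ℝ A ‖a‖ := IsSelfAdjoint.le_algebraMap_norm_self (.of_nonneg ha0)
  have h3 : ‖algebraMap ℝ A ‖a‖ - a‖ ≤ ‖algebraMap ℝ A ‖a‖‖ :=
    CStarAlgebra.norm_le_norm_of_nonneg_of_le (sub_nonneg.mpr h2) (sub_le_self _ ha0)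
  have h4 : ‖algebraMap ℝ A ‖a‖‖ ≤ ‖a‖ := by
    rw [Algebra.algebraMap_eq_smul_one, norm_smul, norm_norm]
    rcases subsingleton_or_nontrivial A with hA | hA
    · rw [Subsingleton.elim (1 : A) 0, norm_zero, mul_zero]; positivity
    · rw [norm_one, mul_one]
  have h5 : ‖g (algebraMap ℝ A ‖a‖ - a)‖ ≤ ‖a‖ := by
    calc _ ≤ ‖g‖ * ‖algebraMap ℝ A ‖a‖ - a‖ := g.le_opNorm _
      _ ≤ 1 * ‖a‖ := by gcongr; exact h3.trans h4
      _ = _ := one_mul _
  have h6 : g (algebraMap ℝ A ‖a‖ - a) = (‖a‖ : ℂ) - g a := by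
    rw [map_sub, Algebra.algebraMap_eq_smul_one, ← Complex.coe_smul, map_smul, h1]
    simp
  rw [h6] at h5
  have h7 := (Complex.re_le_norm _).trans h5
  simp only [Complex.sub_re, Complex.ofReal_re] at h7
  linarith

lemma isState_of_norm_le [Nontrivial A] (g : A →L[ℂ] ℂ) (hg : ‖g‖ ≤ 1) (h1 : g 1 = 1) :
    IsState g := by
  refine ⟨le_antisymm hg ?_, pos_of_norm_le g hg h1⟩
  have := g.le_opNorm 1
  rwa [h1, norm_one, norm_one, mul_one] at this

lemma exists_unital_functional [Nontrivial A] : ∃ g : A →L[ℂ] ℂ, ‖g‖ ≤ 1 ∧ g 1 = 1 := by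
  obtain ⟨g, hg, h1⟩ := exists_dual_vector ℂ (1 : A) (by simp)
  exact ⟨g, hg.le, by simpa using h1⟩

/-- compression of a functional by an element -/
noncomputable def compress (g : A →L[ℂ] ℂ) (s : A) : A →L[ℂ] ℂ :=
  g.comp (ContinuousLinearMap.mulLeftRight ℂ A (star s) s)

lemma compress_apply (g : A →L[ℂ] ℂ) (s a : A) : compress g s a = g (star s * a * s) := rfl

lemma norm_compress_apply_le [Nontrivial A] (g : A →L[ℂ] ℂ) (hg : ‖g‖ ≤ 1) {s : A}
    (hs : star s * s = 1) (a : A) : ‖compress g s a‖ ≤ ‖a‖ := by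
  have hn : ‖s‖ = 1 := by
    have := CStarRing.norm_star_mul_self (x := s)
    rw [hs, norm_one] at this
    have h2 : ‖s‖ ^ 2 = 1 ^ 2 := by rw [sq, ← this]; norm_num
    exact (pow_left_inj₀ (norm_nonneg _) zero_le_one two_ne_zero).mp h2
  rw [compress_apply]
  calc _ ≤ ‖g‖ * ‖star s * a * s‖ := g.le_opNorm _
    _ ≤ 1 * (‖star s‖ * ‖a‖ * ‖s‖) := by
        gcongr
        exact norm_mul₃_le
    _ = _ := by rw [norm_star, hn]; ring

lemma exists_vacuum [Nontrivial A] {s : ℕ → A} (h1 : ∀ i, star (s i) * s i = 1)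
    (h0 : ∀ i j, i ≠ j → star (s i) * s j = 0) :
    ∃ φ : A →L[ℂ] ℂ, ‖φ‖ ≤ 1 ∧ φ 1 = 1 ∧ ∀ i, φ (s i * star (s i)) = 0 := by
  obtain ⟨g, hg, hg1⟩ := exists_unital_functional (A := A)
  let U : Ultrafilter ℕ := hyperfilter ℕ
  have hex : ∀ a : A, ∃ c : ℂ, ‖c‖ ≤ ‖a‖ ∧ Tendsto (fun n => compress g (s n) a) U (𝓝 c) := by
    intro a
    obtain ⟨c, hc, hle⟩ := (isCompact_closedBall (0 : ℂ) ‖a‖).ultrafilter_le_nhds
      (U.map (fun n => compress g (s n) a)) (by
        rw [Ultrafilter.coe_map, le_principal_iff, mem_map]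
        exact univ_mem' (fun n => by
          simpa using norm_compress_apply_le g hg (h1 n) a))
    exact ⟨c, by simpa using hc, hle⟩
  choose c hc hlim using hex
  let φl : A →ₗ[ℂ] ℂ :=
    { toFun := c
      map_add' := fun a b => by
        apply tendsto_nhds_unique (hlim (a + b))
        simpa using (hlim a).add (hlim b)
      map_smul' := fun r a => by
        apply tendsto_nhds_unique (hlim (r • a))
        simpa using (hlim a).const_mul r }
  refine ⟨φl.mkContinuous 1 (fun a => by rw [one_mul]; exact hc a),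
    LinearMap.mkContinuous_norm_le _ zero_le_one _, ?_, ?_⟩
  · change c 1 = 1
    apply tendsto_nhds_unique (hlim 1)
    simp only [compress_apply, mul_one, h1, hg1]
    exact tendsto_const_nhds
  · intro i
    change c _ = 0
    apply tendsto_nhds_unique (hlim _)
    apply tendsto_const_nhds.congr'
    apply Filter.Eventually.filter_mono Nat.hyperfilter_le_atTop
    filter_upwards [eventually_gt_atTop i] with n hn
    rw [compress_apply, ← mul_assoc, h0 n i hn.ne', zero_mul, zero_mul, map_zero]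

lemma exists_mixed [Nontrivial A] {s : ℕ → A} (h1 : ∀ i, star (s i) * s i = 1)
    (h0 : ∀ i j, i ≠ j → star (s i) * s j = 0) :
    ∃ φ : A →L[ℂ] ℂ, ‖φ‖ ≤ 1 ∧ φ 1 = 1 ∧ ∃ u : A, star u = u ∧ u * u = 1 ∧ φ u = 0 ∧
      ∀ a, φ (u * a) = φ (a * u) := by
  obtain ⟨g, hg, hg1⟩ := exists_unital_functional (A := A)
  let φ : A →L[ℂ] ℂ := (1 / 2 : ℂ) • (compress g (s 0) + compress g (s 1))
  have hφ : ∀ a, φ a = (1 / 2 : ℂ) * (g (star (s 0) * a * s 0) + g (star (s 1) * a * s 1)) :=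
    fun a => rfl
  set u : A := 1 - (2 : ℂ) • (s 0 * star (s 0)) with hu
  have hus : star u = u := by simp [hu, star_smul]
  have hu0 : u * s 0 = - s 0 := by
    rw [hu, sub_mul, smul_mul_assoc, mul_assoc, h1, mul_one, one_mul, two_smul]; abel
  have hu1 : u * s 1 = s 1 := by
    rw [hu, sub_mul, smul_mul_assoc, mul_assoc, h0 0 1 (by norm_num), mul_zero, smul_zero,
      one_mul, sub_zero]
  have hu0' : star (s 0) * u = - star (s 0) := by
    have := congrArg star hu0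
    rwa [star_mul, hus, star_neg] at this
  have hu1' : star (s 1) * u = star (s 1) := by
    have := congrArg star hu1
    rwa [star_mul, hus] at this
  refine ⟨φ, ?_, ?_, u, hus, ?_, ?_, ?_⟩
  · apply ContinuousLinearMap.opNorm_le_bound _ zero_le_one
    intro a
    have e0 := norm_compress_apply_le g hg (h1 0) a
    have e1 := norm_compress_apply_le g hg (h1 1) a
    rw [compress_apply] at e0 e1
    rw [hφ, norm_mul]
    have e2 := norm_add_le (g (star (s 0) * a * s 0)) (g (star (s 1) * a * s 1))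
    have e3 : ‖(1 / 2 : ℂ)‖ = 1 / 2 := by simp
    rw [e3]
    linarith
  · rw [hφ]; simp only [mul_one, h1, hg1]; norm_num
  · conv_lhs => rw [show u * u = u * (1 - (2 : ℂ) • (s 0 * star (s 0))) from rfl]
    rw [mul_sub, mul_one, mul_smul_comm, ← mul_assoc, hu0, hu, neg_mul, smul_neg]
    abel
  · rw [hφ, hu0', hu1', neg_mul, h1, h1, map_neg]; simp
  · intro a
    rw [hφ, hφ, ← mul_assoc, ← mul_assoc, hu0', hu1']
    simp only [mul_assoc, hu0, hu1, mul_neg, neg_mul]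

theorem main_forall [Nontrivial A] {s : ℕ → A} (hs : IsCuntzGenerators s) :
    ∃ ω₁ ω₂ : A →L[ℂ] ℂ, IsState ω₁ ∧ IsState ω₂ ∧
      ∀ (D₁ : Type*) (D₂ : Type*) [CStarAlgebra D₁] [CStarAlgebra D₂]
        (ρ₁ : D₁ →L[ℂ] ℂ) (ρ₂ : D₂ →L[ℂ] ℂ),
        IsReducedFreePower ω₁ ρ₁ → IsReducedFreePower ω₂ ρ₂ → IsEmpty (D₁ ≃⋆ₐ[ℂ] D₂) := by
  obtain ⟨h1, h0, hgen⟩ := hs
  obtain ⟨ω₁, hn₁, ho₁, hvac⟩ := exists_vacuum h1 h0
  obtain ⟨ω₂, hn₂, ho₂, u, hus, huu, hu0, huc⟩ := exists_mixed h1 h0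
  have hs₁ := isState_of_norm_le ω₁ hn₁ ho₁
  have hs₂ := isState_of_norm_le ω₂ hn₂ ho₂
  refine ⟨ω₁, ω₂, hs₁, hs₂, ?_⟩
  intro D₁ D₂ _ _ ρ₁ ρ₂ ⟨hρ₁, ι₁, hr₁, hf₁, hg₁, hfaith₁⟩ ⟨hρ₂, ι₂, hr₂, hf₂, hg₂, _⟩
  refine ⟨fun θ => ?_⟩
  have f₁ : FreeData ω₁ ρ₁ ι₁ :=
    ⟨ho₁, state_star hρ₁.nonneg, hr₁, fun l hl ha => hf₁ l hl ha.1 ha.2, hg₁⟩
  have f₂ : FreeData ω₂ ρ₂ ι₂ :=
    ⟨ho₂, state_star hρ₂.nonneg, hr₂, fun l hl ha => hf₂ l hl ha.1 ha.2, hg₂⟩
  have hcs : ∀ i b, ω₁ (s i * b) = 0 := fun i b => state_cs hs₁.nonneg (hvac i) b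
  have hθc : Continuous θ := map_continuous θ
  refine no_cuntz hρ₂.nonneg f₂ hus huu hu0 huc (fun i => θ (ι₁ i.1 (s i.2))) ?_ ?_ ?_
  · intro i
    rw [← map_star, ← map_mul, ← map_star, ← map_mul, h1, map_one, map_one]
  · rintro ⟨n, i⟩ ⟨m, k⟩ hik
    rw [← map_star, ← map_mul]
    by_cases hnm : n = m
    · subst hnm
      have : i ≠ k := fun e => hik (by rw [e])
      rw [← map_star, ← map_mul, h0 i k this, map_zero, map_zero]
    · rw [f₁.orth_ranges hfaith₁ (hcs i) (hcs k) hnm, map_zero]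
  · set C := (StarAlgebra.adjoin ℂ
      (Set.range fun i : ℕ × ℕ => θ (ι₁ i.1 (s i.2)))).topologicalClosure with hC
    have hCc : IsClosed (C : Set D₂) := StarSubalgebra.isClosed_topologicalClosure _
    let θ' : D₁ →⋆ₐ[ℂ] D₂ := θ
    have hA : ∀ n a, θ (ι₁ n a) ∈ C := by
      intro n a
      have h2 : (StarAlgebra.adjoin ℂ (Set.range s)).topologicalClosure ≤
          C.comap (θ'.comp (ι₁ n)) := by
        apply StarSubalgebra.topologicalClosure_minimal
        · rw [StarAlgebra.adjoin_le_iff]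
          rintro _ ⟨i, rfl⟩
          exact StarSubalgebra.le_topologicalClosure _
            (StarAlgebra.subset_adjoin _ _ ⟨(n, i), rfl⟩)
        · exact hCc.preimage (map_continuous (θ'.comp (ι₁ n)))
      exact h2 (by rw [hgen]; trivial)
    have hD : ∀ d, θ d ∈ C := by
      intro d
      have h2 : (StarAlgebra.adjoin ℂ (⋃ n, Set.range (ι₁ n))).topologicalClosure ≤
          C.comap θ' := by
        apply StarSubalgebra.topologicalClosure_minimal
        · rw [StarAlgebra.adjoin_le_iff]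
          intro x hx
          simp only [Set.mem_iUnion, Set.mem_range] at hx
          obtain ⟨n, a, rfl⟩ := hx
          exact hA n a
        · exact hCc.preimage (map_continuous θ')
      exact h2 (by rw [hg₁]; trivial)
    rw [eq_top_iff]
    intro y _
    obtain ⟨d, rfl⟩ := θ.surjective y
    exact hD d

end Pool.Agent.MP_0b3510_an
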