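import Pool.Agent.MP_0b3510_an.Defs

set_option autoImplicit false

open scoped ComplexOrder ComplexConjugate
open Filter Topology

namespace Pool.Agent.MP_0b3510_an

variable {A D : Type*} [CStarAlgebra A] [CStarAlgebra D]

/-- evaluation of a word -/
def ev (ι : ℕ → (A →⋆ₐ[ℂ] D)) (l : List (ℕ × A)) : D := (l.map (fun p => ι p.1 p.2)).prod

/-- alternating centred words -/
def Alt (ω : A →L[ℂ] ℂ) (l : List (ℕ × A)) : Prop :=
  l.IsChain (fun p q => p.1 ≠ q.1) ∧ ∀ p ∈ l, ω p.2 = 0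

/-- the adjoint word -/
def rs (l : List (ℕ × A)) : List (ℕ × A) := (l.map (fun p => (p.1, star p.2))).reverse

/-- the freeness data -/
structure FreeData (ω : A →L[ℂ] ℂ) (ρ : D →L[ℂ] ℂ) (ι : ℕ → (A →⋆ₐ[ℂ] D)) : Prop where
  one : ω 1 = 1
  ρstar : ∀ x, ρ (star x) = conj (ρ x)
  restr : ∀ n a, ρ (ι n a) = ω a
  free : ∀ l : List (ℕ × A), l ≠ [] → Alt ω l → ρ (ev ι l) = 0
  gen : (StarAlgebra.adjoin ℂ (⋃ n, Set.range (ι n))).topologicalClosure = ⊤

variable {ω : A →L[ℂ] ℂ} {ρ : D →L[ℂ] ℂ} {ι : ℕ → (A →⋆ₐ[ℂ] D)}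

@[simp] lemma ev_nil : ev ι [] = 1 := rfl
@[simp] lemma ev_cons (p : ℕ × A) (l : List (ℕ × A)) : ev ι (p :: l) = ι p.1 p.2 * ev ι l := by
  simp [ev]
lemma ev_append (l₁ l₂ : List (ℕ × A)) : ev ι (l₁ ++ l₂) = ev ι l₁ * ev ι l₂ := by
  simp [ev]

@[simp] lemma rs_nil : rs ([] : List (ℕ × A)) = [] := rfl
lemma rs_cons (p : ℕ × A) (l : List (ℕ × A)) : rs (p :: l) = rs l ++ [(p.1, star p.2)] := by
  simp [rs]

lemma star_ev (l : List (ℕ × A)) : star (ev ι l) = ev ι (rs l) := by
  induction l with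
  | nil => simp
  | cons p l ih => rw [rs_cons, ev_append, ev_cons, star_mul, ih]; simp [map_star]

lemma map_fst_rs (l : List (ℕ × A)) : (rs l).map Prod.fst = (l.map Prod.fst).reverse := by
  simp [rs, Function.comp_def]

lemma getLast?_rs (l : List (ℕ × A)) :
    (rs l).getLast? = l.head?.map (fun p => (p.1, star p.2)) := by
  simp [rs]

lemma FreeData.ωstar (h : FreeData ω ρ ι) (a : A) : ω (star a) = conj (ω a) := by
  rw [← h.restr 0, map_star, h.ρstar, h.restr]

lemma FreeData.ρone (h : FreeData ω ρ ι) : ρ 1 = 1 := by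
  rw [← map_one (ι 0), h.restr, h.one]

lemma Alt.nil : Alt ω [] := ⟨List.isChain_nil, by simp⟩

lemma Alt.singleton (n : ℕ) {a : A} (ha : ω a = 0) : Alt ω [(n, a)] :=
  ⟨List.isChain_singleton _, by simpa⟩

lemma Alt.tail {p : ℕ × A} {l : List (ℕ × A)} (h : Alt ω (p :: l)) : Alt ω l :=
  ⟨h.1.tail, fun q hq => h.2 q (List.mem_cons_of_mem _ hq)⟩

lemma Alt.head_ne {p : ℕ × A} {l : List (ℕ × A)} (h : Alt ω (p :: l)) :
    ∀ q ∈ l.head?, p.1 ≠ q.1 := (List.isChain_cons.mp h.1).1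

lemma Alt.cons {p : ℕ × A} {l : List (ℕ × A)} (h : Alt ω l) (hp : ω p.2 = 0)
    (hne : ∀ q ∈ l.head?, p.1 ≠ q.1) : Alt ω (p :: l) := by
  refine ⟨List.isChain_cons.mpr ⟨hne, h.1⟩, ?_⟩
  intro q hq
  rcases List.mem_cons.mp hq with rfl | hq
  · exact hp
  · exact h.2 q hq

lemma Alt.append {l₁ l₂ : List (ℕ × A)} (h₁ : Alt ω l₁) (h₂ : Alt ω l₂)
    (hne : ∀ p ∈ l₁.getLast?, ∀ q ∈ l₂.head?, p.1 ≠ q.1) : Alt ω (l₁ ++ l₂) := by
  refine ⟨h₁.1.append h₂.1 hne, ?_⟩
  intro q hq
  rcases List.mem_append.mp hq with hq | hq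
  · exact h₁.2 q hq
  · exact h₂.2 q hq

lemma FreeData.alt_rs (h : FreeData ω ρ ι) {l : List (ℕ × A)} (hl : Alt ω l) : Alt ω (rs l) := by
  constructor
  · unfold rs
    rw [List.isChain_reverse, List.isChain_map]
    exact hl.1.imp (fun _ _ hab => hab.symm)
  · intro p hp
    simp only [rs, List.mem_reverse, List.mem_map] at hp
    obtain ⟨q, hq, rfl⟩ := hp
    rw [h.ωstar, hl.2 q hq, map_zero]

/-- middle letter lemma -/
lemma FreeData.mid (h : FreeData ω ρ ι) {l₁ l₂ : List (ℕ × A)} (h₁ : Alt ω l₁) (h₂ : Alt ω l₂)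
    (k : ℕ) {a : A} (ha : ω a = 0) (hk₁ : ∀ q ∈ l₁.head?, k ≠ q.1) (hk₂ : ∀ q ∈ l₂.head?, k ≠ q.1) :
    ρ (star (ev ι l₁) * (ι k a * ev ι l₂)) = 0 := by
  have h3 : Alt ω (rs l₁ ++ (k, a) :: l₂) := by
    apply (h.alt_rs h₁).append (h₂.cons ha hk₂)
    intro p hp q hq
    rw [getLast?_rs] at hp
    simp only [Option.mem_def, Option.map_eq_some_iff] at hp
    obtain ⟨p', hp', rfl⟩ := hp
    simp only [List.head?_cons, Option.mem_def, Option.some.injEq] at hq
    subst hq
    exact (hk₁ p' hp').symm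
  have := h.free _ (by simp) h3
  rwa [ev_append, ← star_ev, ev_cons] at this

lemma centre (h1 : ω 1 = 1) (a : A) : ω (a - ω a • 1) = 0 := by
  simp [h1]

/-- words with different index sequences are orthogonal -/
lemma FreeData.orth (h : FreeData ω ρ ι) : ∀ (l₁ l₂ : List (ℕ × A)), Alt ω l₁ → Alt ω l₂ →
    l₁.map Prod.fst ≠ l₂.map Prod.fst → ρ (star (ev ι l₁) * ev ι l₂) = 0 := by
  intro l₁
  induction l₁ with
  | nil =>
    intro l₂ _ h₂ hne
    have : l₂ ≠ [] := by rintro rfl; exact hne rfl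
    simpa using h.free l₂ this h₂
  | cons p l₁ ih =>
    intro l₂ h₁ h₂ hne
    cases l₂ with
    | nil =>
      rw [ev_nil, mul_one, h.ρstar, h.free _ (by simp) h₁, map_zero]
    | cons q l₂ =>
      by_cases hpq : p.1 = q.1
      · have hne' : l₁.map Prod.fst ≠ l₂.map Prod.fst := by
          intro h'
          apply hne
          simp [hpq, h']
        have e1 : star (ev ι (p :: l₁)) * ev ι (q :: l₂)
            = star (ev ι l₁) * (ι p.1 (star p.2 * q.2 - ω (star p.2 * q.2) • 1) * ev ι l₂)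
              + ω (star p.2 * q.2) • (star (ev ι l₁) * ev ι l₂) := by
          rw [ev_cons, ev_cons, star_mul, ← hpq, map_sub, map_mul, map_star, map_smul, map_one]
          simp only [sub_mul, mul_sub, smul_mul_assoc, mul_smul_comm, one_mul, mul_assoc]
          abel
        rw [e1, map_add, map_smul, ih l₂ h₁.tail h₂.tail hne', smul_zero, add_zero]
        apply h.mid h₁.tail h₂.tail _ (centre h.one _) h₁.head_ne
        rw [hpq]
        exact h₂.head_ne
      · rw [ev_cons q]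
        apply h.mid h₁ h₂.tail _ (h₂.2 q (by simp))
        · intro r hr
          simp only [List.head?_cons, Option.mem_def, Option.some.injEq] at hr
          subst hr
          exact fun e => hpq e.symm
        · exact h₂.head_ne

/-- the span of all alternating centred words -/
noncomputable def wordSpan (ω : A →L[ℂ] ℂ) (ι : ℕ → (A →⋆ₐ[ℂ] D)) : Submodule ℂ D :=
  Submodule.span ℂ {x | ∃ l, Alt ω l ∧ x = ev ι l}

lemma ev_mem {l : List (ℕ × A)} (hl : Alt ω l) : ev ι l ∈ wordSpan ω ι :=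
  Submodule.subset_span ⟨l, hl, rfl⟩

lemma mul_ev_mem_of_ne (h1 : ω 1 = 1) {l : List (ℕ × A)} (hl : Alt ω l) (n : ℕ) (a : A)
    (hn : ∀ q ∈ l.head?, n ≠ q.1) : ι n a * ev ι l ∈ wordSpan ω ι := by
  have e : ι n a * ev ι l = ev ι ((n, a - ω a • 1) :: l) + ω a • ev ι l := by
    rw [ev_cons]
    simp only [map_sub, map_smul, map_one, sub_mul, smul_mul_assoc, one_mul]
    abel
  rw [e]
  exact add_mem (ev_mem (hl.cons (centre h1 a) hn)) (Submodule.smul_mem _ _ (ev_mem hl))

lemma mul_ev_mem (h1 : ω 1 = 1) {l : List (ℕ × A)} (hl : Alt ω l) (n : ℕ) (a : A) :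
    ι n a * ev ι l ∈ wordSpan ω ι := by
  cases l with
  | nil => exact mul_ev_mem_of_ne h1 hl n a (by simp)
  | cons q l =>
    by_cases hq : n = q.1
    · rw [ev_cons, ← mul_assoc, ← hq, ← map_mul]
      apply mul_ev_mem_of_ne h1 hl.tail
      rw [hq]
      exact hl.head_ne
    · apply mul_ev_mem_of_ne h1 hl
      intro r hr
      simp only [List.head?_cons, Option.mem_def, Option.some.injEq] at hr
      subst hr
      exact hq

lemma mul_mem_wordSpan (h1 : ω 1 = 1) (n : ℕ) (a : A) {x : D} (hx : x ∈ wordSpan ω ι) :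
    ι n a * x ∈ wordSpan ω ι := by
  induction hx using Submodule.span_induction with
  | mem x hx =>
    obtain ⟨l, hl, rfl⟩ := hx
    exact mul_ev_mem h1 hl n a
  | zero => simp
  | add x y _ _ hx hy => rw [mul_add]; exact add_mem hx hy
  | smul c x _ hx => rw [mul_smul_comm]; exact Submodule.smul_mem _ _ hx

lemma adjoin_le_wordSpan (h1 : ω 1 = 1) {d : D}
    (hd : d ∈ StarAlgebra.adjoin ℂ (⋃ n, Set.range (ι n))) : d ∈ wordSpan ω ι := by
  have key : (∀ x ∈ wordSpan ω ι, d * x ∈ wordSpan ω ι) ∧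
      (∀ x ∈ wordSpan ω ι, star d * x ∈ wordSpan ω ι) := by
    induction hd using StarAlgebra.adjoin_induction with
    | mem d hd =>
      simp only [Set.mem_iUnion, Set.mem_range] at hd
      obtain ⟨n, a, rfl⟩ := hd
      refine ⟨fun x hx => mul_mem_wordSpan h1 n a hx, fun x hx => ?_⟩
      rw [← map_star]
      exact mul_mem_wordSpan h1 n _ hx
    | algebraMap c =>
      refine ⟨fun x hx => ?_, fun x hx => ?_⟩
      · rw [← Algebra.smul_def]; exact Submodule.smul_mem _ _ hx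
      · rw [← algebraMap_star_comm, ← Algebra.smul_def]; exact Submodule.smul_mem _ _ hx
    | add d e _ _ hd he =>
      refine ⟨fun x hx => ?_, fun x hx => ?_⟩
      · rw [add_mul]; exact add_mem (hd.1 x hx) (he.1 x hx)
      · rw [star_add, add_mul]; exact add_mem (hd.2 x hx) (he.2 x hx)
    | mul d e _ _ hd he =>
      refine ⟨fun x hx => ?_, fun x hx => ?_⟩
      · rw [mul_assoc]; exact hd.1 _ (he.1 x hx)
      · rw [star_mul, mul_assoc]; exact he.2 _ (hd.2 x hx)
    | star d _ hd =>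
      refine ⟨hd.2, fun x hx => ?_⟩
      rw [star_star]; exact hd.1 x hx
  have := key.1 1 (ev_mem Alt.nil)
  rwa [mul_one] at this

lemma FreeData.dense (h : FreeData ω ρ ι) : Dense (wordSpan ω ι : Set D) := by
  intro d
  have h1 : d ∈ (StarAlgebra.adjoin ℂ (⋃ n, Set.range (ι n))).topologicalClosure := by
    rw [h.gen]; trivial
  exact closure_mono (fun x hx => adjoin_le_wordSpan h.one hx) h1

/-- a continuous linear map vanishing on all words vanishes -/
lemma FreeData.ext_zero (h : FreeData ω ρ ι) {E : Type*} [NormedAddCommGroup E] [NormedSpace ℂ E]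
    (f : D →L[ℂ] E) (hf : ∀ l, Alt ω l → f (ev ι l) = 0) (x : D) : f x = 0 := by
  have : f = 0 := by
    apply ContinuousLinearMap.ext_on (s := {x | ∃ l, Alt ω l ∧ x = ev ι l}) h.dense
    rintro _ ⟨l, hl, rfl⟩
    simpa using hf l hl
  simp [this]

/-- left multiplication by an element generating a right ideal inside the kernel -/
lemma exists_start {l : List (ℕ × A)} (hl : Alt ω l) (n : ℕ) {s : A}
    (hs : ∀ b, ω (s * b) = 0) :
    ∃ l', Alt ω l' ∧ ι n s * ev ι l = ev ι l' ∧ (l'.map Prod.fst).head? = some n := by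
  have hs1 : ω s = 0 := by simpa using hs 1
  cases l with
  | nil => exact ⟨[(n, s)], Alt.singleton n hs1, by simp, by simp⟩
  | cons q l =>
    by_cases hq : n = q.1
    · refine ⟨(n, s * q.2) :: l, hl.tail.cons (hs _) ?_, ?_, by simp⟩
      · rw [hq]; exact hl.head_ne
      · rw [ev_cons, ev_cons, ← hq, map_mul, mul_assoc]
    · refine ⟨(n, s) :: q :: l, hl.cons hs1 ?_, by simp, by simp⟩
      intro r hr
      simp only [List.head?_cons, Option.mem_def, Option.some.injEq] at hr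
      subst hr
      exact hq

/-- orthogonality of ranges in different copies -/
lemma FreeData.orth_ranges (h : FreeData ω ρ ι)
    (hf : ∀ x : D, (∀ y : D, ρ (star (x * y) * (x * y)) = 0) → x = 0)
    {s t : A} (hs : ∀ b, ω (s * b) = 0) (ht : ∀ b, ω (t * b) = 0) {n m : ℕ} (hnm : n ≠ m) :
    star (ι n s) * ι m t = 0 := by
  set X := star (ι n s) * ι m t with hX
  have h1 : ∀ l₁ l₂, Alt ω l₁ → Alt ω l₂ → ρ (ev ι l₁ * (X * ev ι l₂)) = 0 := by
    intro l₁ l₂ h₁ h₂
    obtain ⟨k₁, hk₁, e₁, s₁⟩ := exists_start (ι := ι) (h.alt_rs h₁) n hs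
    obtain ⟨k₂, hk₂, e₂, s₂⟩ := exists_start (ι := ι) h₂ m ht
    have := h.orth k₁ k₂ hk₁ hk₂ (by
      intro e
      rw [e, s₂] at s₁
      exact hnm (Option.some.inj s₁).symm)
    rw [← e₁, ← e₂, ← star_ev, star_mul, star_star] at this
    rw [hX]
    simpa only [mul_assoc] using this
  have h2 : ∀ l₁, Alt ω l₁ → ∀ y, ρ (ev ι l₁ * (X * y)) = 0 := by
    intro l₁ h₁ y
    have := h.ext_zero (ρ.comp (ContinuousLinearMap.mul ℂ D (ev ι l₁ * X)))
      (fun l hl => by simpa [mul_assoc] using h1 l₁ l h₁ hl) y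
    simpa [mul_assoc] using this
  have h3 : ∀ z y, ρ (z * (X * y)) = 0 := by
    intro z y
    have := h.ext_zero (ρ.comp ((ContinuousLinearMap.mul ℂ D).flip (X * y)))
      (fun l hl => by simpa using h2 l hl y) z
    simpa using this
  exact hf X (fun y => h3 _ y)

/-- centraliser elements of the factor stay in the centraliser -/
lemma FreeData.centraliser (h : FreeData ω ρ ι) {u : A} (hu : star u = u) (hu0 : ω u = 0)
    (huc : ∀ a, ω (u * a) = ω (a * u)) (n : ℕ) (d : D) : ρ (ι n u * d) = ρ (d * ι n u) := by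
  have := h.ext_zero (ρ.comp (ContinuousLinearMap.mul ℂ D (ι n u))
    - ρ.comp ((ContinuousLinearMap.mul ℂ D).flip (ι n u))) (fun l hl => ?_) d
  · simpa [sub_eq_zero] using this
  simp only [sub_apply, ContinuousLinearMap.comp_apply,
    ContinuousLinearMap.mul_apply', ContinuousLinearMap.flip_apply, sub_eq_zero]
  by_cases hl' : l.map Prod.fst = [n]
  · obtain ⟨p, rfl, hp⟩ := List.map_eq_singleton_iff.mp hl'
    simp only [ev_cons, ev_nil, mul_one, hp]
    rw [← map_mul, ← map_mul, h.restr, h.restr, huc]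
  · have e1 := h.orth [(n, u)] l (Alt.singleton n hu0) hl (by simpa using Ne.symm hl')
    have e2 := h.orth (rs l) [(n, u)] (h.alt_rs hl) (Alt.singleton n hu0) (by
      rw [map_fst_rs]
      intro e
      apply hl'
      have := congrArg List.reverse e
      simpa using this)
    rw [← star_ev, star_star] at e2
    simp only [ev_cons, ev_nil, mul_one] at e1 e2
    rw [← map_star, hu] at e1
    rw [e1, e2]

end Pool.Agent.MP_0b3510_an
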